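import Mathlib

set_option autoImplicit false

/-!
# The number of coordinates equal to the middle value: second moment
-/

namespace Pool.Agent.Moser

open Finset

/-- number of coordinates equal to the middle value -/
def nb {d : ℕ} (x : Fin d → Fin 3) : ℕ := (univ.filter fun i => x i = 1).card

def g3 (k : Fin 3) : ℤ := if k = 1 then 2 else -1

theorem nb_eq {d : ℕ} (x : Fin d → Fin 3) : 3 * (nb x : ℤ) - d = ∑ i, g3 (x i) := by
  have h : ∀ i, g3 (x i) = 3 * (if x i = 1 then 1 else 0) - 1 := by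
    intro i
    unfold g3
    split_ifs <;> norm_num
  rw [sum_congr rfl fun i _ => h i, sum_sub_distrib, ← mul_sum]
  simp [nb]

theorem sum_sq (d : ℕ) : ∑ x : Fin d → Fin 3, (∑ i, g3 (x i)) ^ 2 = 2 * d * 3 ^ d := by
  induction d with
  | zero => simp
  | succ d ih =>
    rw [← (Fin.consEquiv (fun _ : Fin (d + 1) => Fin 3)).sum_comp, Fintype.sum_prod_type,
      Fin.sum_univ_three]
    simp only [Fin.consEquiv_apply, Fin.sum_univ_succ, Fin.cons_zero, Fin.cons_succ]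
    rw [← sum_add_distrib, ← sum_add_distrib]
    have h : ∀ y : Fin d → Fin 3, (g3 0 + ∑ i, g3 (y i)) ^ 2 + (g3 1 + ∑ i, g3 (y i)) ^ 2 +
        (g3 2 + ∑ i, g3 (y i)) ^ 2 = 6 + 3 * (∑ i, g3 (y i)) ^ 2 := by
      intro y
      have h0 : g3 0 = -1 := rfl
      have h1 : g3 1 = 2 := rfl
      have h2 : g3 2 = -1 := rfl
      rw [h0, h1, h2]
      ring
    rw [sum_congr rfl fun y _ => h y, sum_add_distrib, ← mul_sum, ih]
    simp
    ring

/-- At least half of all points are central. -/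
theorem central {n : ℕ} (hn : 0 < n) :
    3 ^ (n ^ 2) ≤ 2 * (univ.filter fun x : Fin (n ^ 2) → Fin 3 =>
      n ^ 2 ≤ 3 * nb x + 2 * n ∧ 3 * nb x ≤ n ^ 2 + 2 * n).card := by
  set C := univ.filter fun x : Fin (n ^ 2) → Fin 3 =>
      n ^ 2 ≤ 3 * nb x + 2 * n ∧ 3 * nb x ≤ n ^ 2 + 2 * n with hC
  have h1 := sum_sq (n ^ 2)
  have h2 : ∑ x ∈ Cᶜ, (4 * (n : ℤ) ^ 2) ≤ ∑ x : Fin (n ^ 2) → Fin 3, (∑ i, g3 (x i)) ^ 2 := by
    refine (sum_le_sum fun x hx => ?_).trans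
      (sum_le_sum_of_subset_of_nonneg (subset_univ Cᶜ) fun x _ _ => sq_nonneg _)
    rw [mem_compl, hC, mem_filter] at hx
    rw [← nb_eq]
    push_cast
    have h3 : ¬ (n ^ 2 ≤ 3 * nb x + 2 * n ∧ 3 * nb x ≤ n ^ 2 + 2 * n) := fun h =>
      hx ⟨mem_univ _, h⟩
    by_cases h4 : n ^ 2 ≤ 3 * nb x + 2 * n
    · have h5 : n ^ 2 + 2 * n < 3 * nb x := by
        by_contra h6
        exact h3 ⟨h4, not_lt.1 h6⟩
      zify at h5
      nlinarith
    · have h5 : 3 * nb x + 2 * n < n ^ 2 := not_le.1 h4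
      zify at h5
      nlinarith
  rw [h1, sum_const, nsmul_eq_mul] at h2
  have h3 : (Cᶜ.card : ℤ) = 3 ^ (n ^ 2) - C.card := by
    have := card_add_card_compl C
    have h4 : Fintype.card (Fin (n ^ 2) → Fin 3) = 3 ^ (n ^ 2) := by simp
    rw [h4] at this
    zify at this
    linarith
  rw [h3] at h2
  push_cast at h2
  have hn' : (0 : ℤ) < (n : ℤ) ^ 2 := by positivity
  have h4 : 4 * ((3 : ℤ) ^ (n ^ 2) - C.card) ≤ 2 * 3 ^ (n ^ 2) := by
    have : (n : ℤ) ^ 2 * (4 * ((3 : ℤ) ^ (n ^ 2) - C.card)) ≤ (n : ℤ) ^ 2 * (2 * 3 ^ (n ^ 2)) := by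
      linarith
    exact le_of_mul_le_mul_left this hn'
  zify
  linarith

end Pool.Agent.Moser
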