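import Mathlib

set_option autoImplicit false

/-!
# Weights without short vanishing signed sums
-/

namespace Pool.Agent.Moser

open Finset

open scoped Pointwise

variable {M : ℕ}

/-- sums of at most `k` elements `0, ± w i` -/
def Fs {d : ℕ} (w : Fin d → ZMod M) : ℕ → Finset (ZMod M)
  | 0 => {0}
  | k + 1 => Fs w k + (({0} ∪ univ.image w) ∪ univ.image (fun i => -w i))

theorem card_Fs {d : ℕ} (w : Fin d → ZMod M) (k : ℕ) : (Fs w k).card ≤ (2 * d + 1) ^ k := by
  induction k with
  | zero => simp [Fs]
  | succ k ih =>
    rw [Fs, pow_succ]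
    refine (card_add_le).trans (Nat.mul_le_mul ih ?_)
    have h1 : (univ.image w).card ≤ d := by
      simpa using card_image_le (s := (univ : Finset (Fin d))) (f := w)
    have h2 : (univ.image (fun i => -w i)).card ≤ d := by
      simpa using card_image_le (s := (univ : Finset (Fin d))) (f := fun i => -w i)
    calc _ ≤ (({0} : Finset (ZMod M)) ∪ univ.image w).card + (univ.image (fun i => -w i)).card :=
          card_union_le _ _
      _ ≤ (({0} : Finset (ZMod M)).card + (univ.image w).card) +
          (univ.image (fun i => -w i)).card := by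
          gcongr
          exact card_union_le _ _
      _ ≤ _ := by
          rw [card_singleton]
          omega

theorem Fs_succ_of {d : ℕ} (w : Fin d → ZMod M) {k : ℕ} {a : ZMod M} (ha : a ∈ Fs w k) :
    a ∈ Fs w (k + 1) := by
  rw [Fs]
  have := add_mem_add ha (show (0 : ZMod M) ∈ (({0} ∪ univ.image w) ∪
    univ.image (fun i => -w i)) by simp)
  simpa using this

theorem mem_Fs {d : ℕ} (w : Fin d → ZMod M) (k : ℕ) : ∀ (c : Fin d → ℤ),
    (∀ i, c i = -1 ∨ c i = 0 ∨ c i = 1) → (univ.filter fun i => c i ≠ 0).card ≤ k →
    ∑ i, (c i : ZMod M) * w i ∈ Fs w k := by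
  induction k with
  | zero =>
    intro c hc h
    have h0 : ∀ i, c i = 0 := by
      intro i
      by_contra hi
      have : i ∈ univ.filter fun i => c i ≠ 0 := by simp [hi]
      have := card_pos.2 ⟨i, this⟩
      omega
    simp [Fs, h0]
  | succ k ih =>
    intro c hc h
    by_cases hz : ∀ i, c i = 0
    · refine Fs_succ_of w (ih c hc ?_)
      simp [hz]
    · push Not at hz
      obtain ⟨j, hj⟩ := hz
      have hsum : ∑ i, (c i : ZMod M) * w i =
          ∑ i, ((Function.update c j 0 i : ℤ) : ZMod M) * w i + (c j : ZMod M) * w j := by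
        rw [← Finset.add_sum_erase univ _ (mem_univ j),
          ← Finset.add_sum_erase univ (fun i => ((Function.update c j 0 i : ℤ) : ZMod M) * w i)
            (mem_univ j)]
        have : ∑ i ∈ univ.erase j, (c i : ZMod M) * w i =
            ∑ i ∈ univ.erase j, ((Function.update c j 0 i : ℤ) : ZMod M) * w i := by
          refine sum_congr rfl fun i hi => ?_
          rw [Function.update_of_ne (ne_of_mem_erase hi)]
        rw [this]
        simp
        ring
      rw [hsum, Fs]
      refine add_mem_add (ih _ ?_ ?_) ?_
      · intro i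
        by_cases hi : i = j
        · subst hi
          simp
        · rw [Function.update_of_ne hi]
          exact hc i
      · have hsub : (univ.filter fun i => Function.update c j 0 i ≠ 0) ⊆
            (univ.filter fun i => c i ≠ 0).erase j := by
          intro i hi
          rw [mem_filter] at hi
          have hij : i ≠ j := by
            rintro rfl
            simp at hi
          rw [Function.update_of_ne hij] at hi
          exact mem_erase.2 ⟨hij, mem_filter.2 ⟨mem_univ _, hi.2⟩⟩
        have hle := card_le_card hsub
        have hjm : j ∈ univ.filter fun i => c i ≠ 0 := mem_filter.2 ⟨mem_univ _, hj⟩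
        rw [card_erase_of_mem hjm] at hle
        omega
      · rcases hc j with h1 | h1 | h1
        · simp [h1]
        · exact absurd h1 hj
        · simp [h1]

/-- Existence of weights without short vanishing signed sums. -/
theorem exists_weights [NeZero M] (K : ℕ) : ∀ d : ℕ, (2 * d + 1) ^ K < M →
    ∃ w : Fin d → ZMod M, ∀ c : Fin d → ℤ, (∀ i, c i = -1 ∨ c i = 0 ∨ c i = 1) →
      (univ.filter fun i => c i ≠ 0).card ≤ K → (∃ i, c i ≠ 0) →
      ∑ i, (c i : ZMod M) * w i ≠ 0 := by
  intro d
  induction d with
  | zero =>
    intro _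
    exact ⟨Fin.elim0, fun c _ _ h => h.choose.elim0⟩
  | succ d ih =>
    intro hM
    have hM' : (2 * d + 1) ^ K < M :=
      lt_of_le_of_lt (Nat.pow_le_pow_left (by omega) K) hM
    obtain ⟨w, hw⟩ := ih hM'
    have hcard : (Fs w K).card < (univ : Finset (ZMod M)).card := by
      rw [card_univ, ZMod.card]
      exact (card_Fs w K).trans_lt hM'
    obtain ⟨a, -, ha⟩ := exists_mem_notMem_of_card_lt_card hcard
    refine ⟨Fin.cons a w, fun c hc hK hne h0 => ?_⟩
    rw [Fin.sum_univ_succ] at h0
    simp only [Fin.cons_zero, Fin.cons_succ] at h0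
    -- the support of the tail
    have hsupp : (univ.filter fun i : Fin d => c i.succ ≠ 0).card ≤
        (univ.filter fun i => c i ≠ 0).card := by
      have : ((univ.filter fun i : Fin d => c i.succ ≠ 0).map (Fin.succEmb d)) ⊆
          (univ.filter fun i => c i ≠ 0) := by
        intro i hi
        rw [mem_map] at hi
        obtain ⟨j, hj, rfl⟩ := hi
        rw [mem_filter] at hj ⊢
        exact ⟨mem_univ _, hj.2⟩
      have := card_le_card this
      rwa [card_map] at this
    rcases hc 0 with h1 | h1 | h1
    · apply ha
      have h2 : a = ∑ i : Fin d, (c i.succ : ZMod M) * w i := by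
        rw [h1] at h0
        push_cast at h0
        linear_combination -h0
      rw [h2]
      exact mem_Fs w K (fun i => c i.succ) (fun i => hc _) (hsupp.trans hK)
    · rw [h1] at h0
      push_cast at h0
      rw [zero_mul, zero_add] at h0
      obtain ⟨i, hi⟩ := hne
      have hi0 : i ≠ 0 := by
        rintro rfl
        exact hi h1
      obtain ⟨j, rfl⟩ := Fin.exists_succ_eq.2 hi0
      exact hw (fun i => c i.succ) (fun i => hc _) (hsupp.trans hK) ⟨j, hi⟩ h0
    · apply ha
      have h2 : a = ∑ i : Fin d, ((-c i.succ : ℤ) : ZMod M) * w i := by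
        rw [h1] at h0
        push_cast at h0 ⊢
        simp only [neg_mul, sum_neg_distrib]
        linear_combination h0
      rw [h2]
      refine mem_Fs w K (fun i => -c i.succ) (fun i => ?_) ?_
      · rcases hc i.succ with h | h | h <;> simp [h]
      · simpa using hsupp.trans hK

end Pool.Agent.Moser
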