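import Pool.Agent.Moser.Digits
import Pool.Agent.Moser.Weights
import Pool.Agent.Moser.Count

set_option autoImplicit false

/-!
# The construction
-/

namespace Pool.Agent.Moser

open Finset

/-- centred value of a coordinate -/
def sg (k : Fin 3) : ℤ := (k : ℤ) - 1

theorem sg_cases (k : Fin 3) : sg k = -1 ∨ sg k = 0 ∨ sg k = 1 := by
  fin_cases k <;> simp [sg]

/-- the additive statistic -/
def st {M d : ℕ} (w : Fin d → ZMod M) (x : Fin d → Fin 3) : ZMod M :=
  ∑ i, (sg (x i) : ZMod M) * w i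

/-- `p`, `q` are the endpoints and `m` the midpoint of a line. -/
def IsLine {d : ℕ} (p q m : Fin d → Fin 3) : Prop := ∀ i, sg (p i) + sg (q i) = 2 * sg (m i)

theorem st_line {M d : ℕ} (w : Fin d → ZMod M) {p q m : Fin d → Fin 3} (h : IsLine p q m) :
    st w p + st w q = 2 * st w m := by
  unfold st
  rw [← sum_add_distrib, mul_sum]
  refine sum_congr rfl fun i _ => ?_
  have := congrArg (fun z : ℤ => (z : ZMod M)) (h i)
  push_cast at this
  linear_combination w i * this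

/-- coordinatewise description of a line -/
theorem line_cases : ∀ a b c : Fin 3, sg a + sg b = 2 * sg c →
    (a = b ∧ c = a) ∨ (a ≠ b ∧ c = 1 ∧ a ≠ 1 ∧ sg c = 0) := by
  decide

theorem nb_line {d : ℕ} {p q m : Fin d → Fin 3} (h : IsLine p q m) :
    nb m = nb p + (univ.filter fun i => p i ≠ q i).card := by
  unfold nb
  rw [← card_union_of_disjoint]
  · congr 1
    ext i
    simp only [mem_filter, mem_univ, true_and, mem_union]
    rcases line_cases _ _ _ (h i) with ⟨h1, h2⟩ | ⟨h1, h2, h3, _⟩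
    · rw [h2]
      simp [h1]
    · simp [h1, h2]
  · rw [disjoint_filter]
    intro i _ hi
    rcases line_cases _ _ _ (h i) with ⟨h1, _⟩ | ⟨_, _, h3, _⟩
    · exact not_not.2 h1
    · exact absurd hi h3

theorem supp_line {d : ℕ} {p q m : Fin d → Fin 3} (h : IsLine p q m) (i : Fin d) :
    sg (p i) - sg (m i) ≠ 0 ↔ p i ≠ q i := by
  rcases line_cases _ _ _ (h i) with ⟨h1, h2⟩ | ⟨h1, h2, h3, h4⟩
  · rw [h2]
    simp [h1]
  · rw [h4, sub_zero]
    refine ⟨fun _ => h1, fun _ => ?_⟩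
    have : ∀ a : Fin 3, a ≠ 1 → sg a ≠ 0 := by decide
    exact this _ h3

theorem sub_cases {d : ℕ} {p q m : Fin d → Fin 3} (h : IsLine p q m) (i : Fin d) :
    sg (p i) - sg (m i) = -1 ∨ sg (p i) - sg (m i) = 0 ∨ sg (p i) - sg (m i) = 1 := by
  rcases line_cases _ _ _ (h i) with ⟨h1, h2⟩ | ⟨h1, h2, h3, h4⟩
  · rw [h2]
    simp
  · rw [h4, sub_zero]
    exact sg_cases _

/-- The set attached to `(θ, e)`. -/
def SS (B D N K R : ℕ) {d : ℕ} (w : Fin d → ZMod (2 * N)) (θ : ZMod (2 * N)) (e : ℕ) :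
    Finset (Fin d → Fin 3) :=
  univ.filter fun x => (st w x + θ).val < N ∧
    K * cl B D (st w x + θ).val + e ≤ nb x + R * K ∧
    nb x + R * K < K * cl B D (st w x + θ).val + K + e

theorem SS_free {B D N K R d : ℕ} (hB : B % 2 = 1) (hN : N = B ^ D) [NeZero (2 * N)]
    {w : Fin d → ZMod (2 * N)}
    (hw : ∀ c : Fin d → ℤ, (∀ i, c i = -1 ∨ c i = 0 ∨ c i = 1) →
      (univ.filter fun i => c i ≠ 0).card ≤ K → (∃ i, c i ≠ 0) →
      ∑ i, (c i : ZMod (2 * N)) * w i ≠ 0)
    (θ : ZMod (2 * N)) (e : ℕ) {p q m : Fin d → Fin 3} (hp : p ∈ SS B D N K R w θ e)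
    (hq : q ∈ SS B D N K R w θ e) (hm : m ∈ SS B D N K R w θ e) (hl : IsLine p q m) : p = q := by
  simp only [SS, mem_filter, mem_univ, true_and] at hp hq hm
  by_contra hne
  obtain ⟨vp, hvp⟩ : ∃ v, v = (st w p + θ).val := ⟨_, rfl⟩
  obtain ⟨vq, hvq⟩ : ∃ v, v = (st w q + θ).val := ⟨_, rfl⟩
  obtain ⟨vm, hvm⟩ : ∃ v, v = (st w m + θ).val := ⟨_, rfl⟩
  rw [← hvp] at hp
  rw [← hvq] at hq
  rw [← hvm] at hm
  have ep : ((vp : ℕ) : ZMod (2 * N)) = st w p + θ := by rw [hvp, ZMod.natCast_zmod_val]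
  have eq : ((vq : ℕ) : ZMod (2 * N)) = st w q + θ := by rw [hvq, ZMod.natCast_zmod_val]
  have em : ((vm : ℕ) : ZMod (2 * N)) = st w m + θ := by rw [hvm, ZMod.natCast_zmod_val]
  -- the exact equation
  have hsum : vp + vq = 2 * vm := by
    have h1 : ((vp + vq : ℕ) : ZMod (2 * N)) = ((2 * vm : ℕ) : ZMod (2 * N)) := by
      push_cast
      rw [ep, eq, em]
      linear_combination st_line w hl
    rw [ZMod.natCast_eq_natCast_iff] at h1
    have h2 : (vp + vq) % (2 * N) = (2 * vm) % (2 * N) := h1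
    rwa [Nat.mod_eq_of_lt (by omega), Nat.mod_eq_of_lt (by omega)] at h2
  have hnbp := nb_line hl
  have hqp : IsLine q p m := fun i => by rw [add_comm]; exact hl i
  have hnbq := nb_line hqp
  obtain ⟨j, hj⟩ : ∃ j, j = (univ.filter fun i => p i ≠ q i).card := ⟨_, rfl⟩
  have hj' : (univ.filter fun i => q i ≠ p i).card = j := by
    rw [hj]
    congr 1
    ext i
    simp [ne_comm]
  rw [← hj] at hnbp
  rw [hj'] at hnbq
  obtain ⟨i, hi⟩ : ∃ i, p i ≠ q i := by
    by_contra h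
    push Not at h
    exact hne (funext h)
  have hjpos : 0 < j := by
    rw [hj]
    exact card_pos.2 ⟨i, mem_filter.2 ⟨mem_univ _, hi⟩⟩
  have hK : 0 < K := by
    by_contra h
    have : K = 0 := by omega
    subst this
    simp at hp
    omega
  -- the class numbers
  have hrank : ∀ {v b : ℕ}, K * cl B D v + e ≤ b + R * K → nb m = b + j →
      cl B D v ≤ cl B D vm := by
    intro v b h1 h2
    have h3 : K * cl B D v < K * (cl B D vm + 1) := by
      have := hm.2.2
      rw [mul_add, mul_one]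
      omega
    have := Nat.lt_of_mul_lt_mul_left h3
    omega
  have hr1 := hrank hp.2.1 hnbp
  have hcl : cl B D vp = cl B D vq := by
    have hb : nb p = nb q := by omega
    have h1 := hp.2.1
    have h2 := hp.2.2
    have h3 := hq.2.1
    have h4 := hq.2.2
    rw [← hb] at h3 h4
    have h5 : K * cl B D vp < K * (cl B D vq + 1) := by
      rw [mul_add, mul_one]
      omega
    have h6 : K * cl B D vq < K * (cl B D vp + 1) := by
      rw [mul_add, mul_one]
      omega
    have h7 := Nat.lt_of_mul_lt_mul_left h5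
    have h8 := Nat.lt_of_mul_lt_mul_left h6
    omega
  have hvv : vp = vq := by
    by_contra hvne
    have := cl_mid hB (hN ▸ hp.1) (hN ▸ hq.1) hsum hcl hvne
    omega
  have hvm' : vm = vp := by omega
  -- the vanishing signed sum
  have h0 : ∑ i, ((sg (p i) - sg (m i) : ℤ) : ZMod (2 * N)) * w i = 0 := by
    have h1 : st w p = st w m := by
      have : st w p + θ = st w m + θ := by rw [← ep, ← em, hvm']
      exact add_right_cancel this
    have h2 : ∑ i, ((sg (p i) - sg (m i) : ℤ) : ZMod (2 * N)) * w i = st w p - st w m := by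
      unfold st
      rw [← sum_sub_distrib]
      refine sum_congr rfl fun i _ => ?_
      push_cast
      ring
    rw [h2, h1, sub_self]
  refine hw (fun i => sg (p i) - sg (m i)) (fun i => sub_cases hl i) ?_
    ⟨i, (supp_line hl i).2 hi⟩ h0
  have h9 : (univ.filter fun i => sg (p i) - sg (m i) ≠ 0) = univ.filter fun i => p i ≠ q i := by
    ext i
    simp only [mem_filter, mem_univ, true_and]
    exact supp_line hl i
  rw [h9, ← hj]
  have h1 := hp.2.1
  have h2 := hm.2.2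
  rw [hvm'] at h2
  omega

/-- Each central point lies in at least `N * K` of the sets. -/
theorem count_pairs {B D N K R d : ℕ} (hN0 : 0 < N) (hR : ∀ v, cl B D v < R)
    [NeZero (2 * N)] (w : Fin d → ZMod (2 * N)) (x : Fin d → Fin 3) {lo hi : ℕ}
    (hlo : lo ≤ nb x) (hhi : nb x ≤ hi) :
    N * K ≤ (((univ : Finset (ZMod (2 * N))) ×ˢ Ioc lo (hi + R * K)).filter
      fun t => x ∈ SS B D N K R w t.1 t.2).card := by
  have hcard : ((range N) ×ˢ (range K)).card = N * K := by simp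
  rw [← hcard]
  refine card_le_card_of_injOn
    (fun t : ℕ × ℕ => (((t.1 : ℕ) : ZMod (2 * N)) - st w x, nb x + R * K - K * cl B D t.1 - t.2))
    ?_ ?_
  · rintro ⟨v, i⟩ ht
    rw [mem_coe, mem_product, mem_range, mem_range] at ht
    obtain ⟨hv, hi'⟩ := ht
    simp only at hv hi'
    have hval : (st w x + (((v : ℕ) : ZMod (2 * N)) - st w x)).val = v := by
      rw [add_sub_cancel, ZMod.val_natCast]
      exact Nat.mod_eq_of_lt (by omega)
    have h1 : K * (cl B D v + 1) ≤ R * K := by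
      rw [mul_comm R K]
      exact Nat.mul_le_mul_left K (hR v)
    rw [mul_add, mul_one] at h1
    rw [mem_coe, mem_filter, mem_product, mem_Ioc]
    simp only [SS, mem_filter, mem_univ, true_and, hval]
    refine ⟨⟨by omega, by omega⟩, hv, by omega, by omega⟩
  · rintro ⟨v, i⟩ ht ⟨v', i'⟩ ht' heq
    rw [mem_coe, mem_product, mem_range, mem_range] at ht ht'
    simp only at ht ht'
    simp only [Prod.mk.injEq] at heq
    have h1 : ((v : ℕ) : ZMod (2 * N)) = ((v' : ℕ) : ZMod (2 * N)) := by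
      have := heq.1
      linear_combination this
    rw [ZMod.natCast_eq_natCast_iff] at h1
    have h2 : v % (2 * N) = v' % (2 * N) := h1
    rw [Nat.mod_eq_of_lt (by omega), Nat.mod_eq_of_lt (by omega)] at h2
    subst h2
    have h3 : K * (cl B D v + 1) ≤ R * K := by
      rw [mul_comm R K]
      exact Nat.mul_le_mul_left K (hR v)
    rw [mul_add, mul_one] at h3
    have h4 := heq.2
    have : i = i' := by omega
    rw [this]

/-- The large line-free sets. -/
theorem exists_large {B D N K R n : ℕ} (hB : B % 2 = 1) (hN : N = B ^ D) (hn : 0 < n)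
    (hR : ∀ v, cl B D v < R) (hRK : R * K ≤ n) (hM : (2 * n ^ 2 + 1) ^ K < 2 * N) :
    ∃ S : Finset (Fin (n ^ 2) → Fin 3),
      (∀ p ∈ S, ∀ q ∈ S, ∀ m ∈ S, IsLine p q m → p = q) ∧ K * 3 ^ (n ^ 2) ≤ 16 * n * S.card := by
  have hN0 : 0 < N := by omega
  have : NeZero (2 * N) := ⟨by omega⟩
  obtain ⟨w, hw⟩ := exists_weights (M := 2 * N) K (n ^ 2) hM
  set lo := (n ^ 2 - 2 * n) / 3 with hlo
  set hi := (n ^ 2 + 2 * n) / 3 with hhi
  set P := (univ : Finset (ZMod (2 * N))) ×ˢ Ioc lo (hi + R * K) with hP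
  set C := univ.filter fun x : Fin (n ^ 2) → Fin 3 =>
      n ^ 2 ≤ 3 * nb x + 2 * n ∧ 3 * nb x ≤ n ^ 2 + 2 * n with hC
  have hcen := central hn
  rw [← hC] at hcen
  have hPc : P.card ≤ 8 * N * n := by
    rw [hP, card_product, card_univ, ZMod.card, Nat.card_Ioc]
    have h1 : hi + R * K - lo ≤ 4 * n := by omega
    calc 2 * N * (hi + R * K - lo) ≤ 2 * N * (4 * n) := Nat.mul_le_mul_left _ h1
      _ = 8 * N * n := by ring
  have hdouble : C.card * (N * K) ≤ ∑ t ∈ P, (SS B D N K R w t.1 t.2).card := by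
    have h1 : ∑ t ∈ P, (SS B D N K R w t.1 t.2).card =
        ∑ x : Fin (n ^ 2) → Fin 3, (P.filter fun t => x ∈ SS B D N K R w t.1 t.2).card := by
      simp only [card_eq_sum_ones]
      have h2 : ∀ t ∈ P, ∑ x ∈ SS B D N K R w t.1 t.2, 1 =
          ∑ x : Fin (n ^ 2) → Fin 3, if x ∈ SS B D N K R w t.1 t.2 then 1 else 0 := by
        intro t _
        rw [sum_boole]
        simp
      rw [sum_congr rfl h2, sum_comm]
      refine sum_congr rfl fun x _ => ?_
      rw [sum_filter]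
    rw [h1]
    calc C.card * (N * K) = ∑ x ∈ C, N * K := by rw [sum_const, smul_eq_mul]
      _ ≤ ∑ x ∈ C, (P.filter fun t => x ∈ SS B D N K R w t.1 t.2).card := by
          refine sum_le_sum fun x hx => ?_
          rw [hC, mem_filter] at hx
          exact count_pairs hN0 hR w x (by omega) (by omega)
      _ ≤ _ := sum_le_sum_of_subset (subset_univ _)
  -- choose the best pair
  have hPne : P.Nonempty := by
    rw [hP]
    refine Nonempty.product ⟨0, mem_univ _⟩ ⟨hi + R * K, ?_⟩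
    rw [mem_Ioc]
    have h1 : 1 ≤ n ^ 2 := Nat.one_le_pow _ _ hn
    omega
  obtain ⟨t, htP, ht⟩ := exists_max_image P (fun t => (SS B D N K R w t.1 t.2).card) hPne
  refine ⟨SS B D N K R w t.1 t.2, fun p hp q hq m hm hl =>
    SS_free hB hN hw t.1 t.2 hp hq hm hl, ?_⟩
  have h3 : ∑ s ∈ P, (SS B D N K R w s.1 s.2).card ≤ P.card * (SS B D N K R w t.1 t.2).card :=
    sum_le_card_nsmul P _ _ fun s hs => ht s hs
  set c := (SS B D N K R w t.1 t.2).card with hc
  have h4 : C.card * (N * K) ≤ 8 * N * n * c :=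
    hdouble.trans (h3.trans (Nat.mul_le_mul_right _ hPc))
  have h5 : N * (K * 3 ^ (n ^ 2)) ≤ N * (16 * n * c) := by
    calc N * (K * 3 ^ (n ^ 2)) = 3 ^ (n ^ 2) * (N * K) := by ring
      _ ≤ (2 * C.card) * (N * K) := Nat.mul_le_mul_right _ hcen
      _ = 2 * (C.card * (N * K)) := by ring
      _ ≤ 2 * (8 * N * n * c) := Nat.mul_le_mul_left _ h4
      _ = N * (16 * n * c) := by ring
  exact Nat.le_of_mul_le_mul_left h5 hN0

/-- The parameters. -/
theorem exists_params (K : ℕ) (hK : 0 < K) :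
    ∃ n : ℕ, 0 < n ∧ ∃ S : Finset (Fin (n ^ 2) → Fin 3),
      (∀ p ∈ S, ∀ q ∈ S, ∀ m ∈ S, IsLine p q m → p = q) ∧ K * 3 ^ (n ^ 2) ≤ 16 * n * S.card := by
  obtain ⟨T, hT⟩ : ∃ T, T = 2 ^ (8 * K) * K := ⟨_, rfl⟩
  have hTpos : 0 < T := by
    rw [hT]
    positivity
  obtain ⟨m, hm⟩ : ∃ m, m = (200 * K + 1) * T := ⟨_, rfl⟩
  have hmpos : 0 < m := by
    rw [hm]
    positivity
  refine ⟨m ^ 4, by positivity, ?_⟩
  refine exists_large (B := 4 * m + 1) (D := 8 * K) (N := (4 * m + 1) ^ (8 * K))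
    (R := (8 * K * (4 * m + 1) ^ 2 + 1) * 2 ^ (8 * K)) (by omega) rfl (by positivity)
    (fun v => cl_lt (by omega) _ v) ?_ ?_
  · have h1 : (8 * K * (4 * m + 1) ^ 2 + 1) ≤ (200 * K + 1) * m ^ 2 := by
      have h2 : (4 * m + 1) ^ 2 ≤ 25 * m ^ 2 := by nlinarith
      have h3 : 1 ≤ m ^ 2 := Nat.one_le_pow _ _ hmpos
      nlinarith
    calc (8 * K * (4 * m + 1) ^ 2 + 1) * 2 ^ (8 * K) * K =
          (8 * K * (4 * m + 1) ^ 2 + 1) * T := by rw [hT]; ring
      _ ≤ (200 * K + 1) * m ^ 2 * T := Nat.mul_le_mul_right _ h1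
      _ = m * m ^ 2 := by rw [hm]; ring
      _ ≤ m ^ 4 := by
          have : m * m ^ 2 = m ^ 3 := by ring
          rw [this]
          exact Nat.pow_le_pow_right hmpos (by norm_num)
  · have h1 : 2 * (m ^ 4) ^ 2 + 1 ≤ (4 * m + 1) ^ 8 := by
      have h2 : (m ^ 4) ^ 2 = m ^ 8 := by ring
      rw [h2]
      have h3 : (4 * m) ^ 8 ≤ (4 * m + 1) ^ 8 := Nat.pow_le_pow_left (by omega) 8
      have h4 : (4 * m) ^ 8 = 65536 * m ^ 8 := by ring
      have h5 : 1 ≤ m ^ 8 := Nat.one_le_pow _ _ hmpos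
      omega
    calc (2 * (m ^ 4) ^ 2 + 1) ^ K ≤ ((4 * m + 1) ^ 8) ^ K := Nat.pow_le_pow_left h1 K
      _ = (4 * m + 1) ^ (8 * K) := by rw [← pow_mul]
      _ < 2 * (4 * m + 1) ^ (8 * K) := by
          have : 0 < (4 * m + 1) ^ (8 * K) := by positivity
          omega

end Pool.Agent.Moser
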