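import Mathlib

set_option autoImplicit false

/-!
# Convexity of digit vectors

`nrm B D v` is the squared norm of the vector of the first `D` digits of `v` in base `B`, `par B D v` encodes
the parities of these digits.  If `v₁ + v₂ = 2 v'`, the parities agree and `B` is odd, then the digit
vector of `v'` is the average of the digit vectors of `v₁` and `v₂`.
-/

namespace Pool.Agent.Moser

def nrm (B : ℕ) : ℕ → ℕ → ℕ
  | 0, _ => 0
  | D + 1, v => (v % B) ^ 2 + nrm B D (v / B)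

def par (B : ℕ) : ℕ → ℕ → ℕ
  | 0, _ => 0
  | D + 1, v => (v % B) % 2 + 2 * par B D (v / B)

theorem par_lt (B : ℕ) : ∀ D v : ℕ, par B D v < 2 ^ D
  | 0, v => by simp [par]
  | D + 1, v => by
    have h := par_lt B D (v / B)
    have h2 : (v % B) % 2 < 2 := Nat.mod_lt _ (by norm_num)
    simp only [par, pow_succ]
    omega

theorem nrm_le {B : ℕ} (hB : 0 < B) : ∀ D v : ℕ, nrm B D v ≤ D * B ^ 2
  | 0, v => by simp [nrm]
  | D + 1, v => by
    have h := nrm_le hB D (v / B)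
    have h2 : v % B < B := Nat.mod_lt _ hB
    have h3 : (v % B) ^ 2 ≤ B ^ 2 := Nat.pow_le_pow_left h2.le 2
    simp only [nrm]
    nlinarith

/-- The key convexity property. -/
theorem nrm_mid {B : ℕ} (hB : B % 2 = 1) : ∀ D v₁ v₂ v' : ℕ, v₁ < B ^ D → v₂ < B ^ D →
    v₁ + v₂ = 2 * v' → par B D v₁ = par B D v₂ →
    2 * nrm B D v' ≤ nrm B D v₁ + nrm B D v₂ ∧
      (v₁ ≠ v₂ → 2 * nrm B D v' < nrm B D v₁ + nrm B D v₂)
  | 0, v₁, v₂, v', h1, h2, _, _ => by
    simp only [pow_zero, Nat.lt_one_iff] at h1 h2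
    refine ⟨by simp [nrm], fun h => absurd (h1.trans h2.symm) h⟩
  | D + 1, v₁, v₂, v', h1, h2, h12, hp => by
    have hB0 : 0 < B := by omega
    obtain ⟨a₁, ha₁⟩ : ∃ a, a = v₁ % B := ⟨_, rfl⟩
    obtain ⟨a₂, ha₂⟩ : ∃ a, a = v₂ % B := ⟨_, rfl⟩
    obtain ⟨q₁, hq₁⟩ : ∃ a, a = v₁ / B := ⟨_, rfl⟩
    obtain ⟨q₂, hq₂⟩ : ∃ a, a = v₂ / B := ⟨_, rfl⟩
    have e1 : B * q₁ + a₁ = v₁ := by rw [hq₁, ha₁]; exact Nat.div_add_mod v₁ B
    have e2 : B * q₂ + a₂ = v₂ := by rw [hq₂, ha₂]; exact Nat.div_add_mod v₂ B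
    have l1 : a₁ < B := by rw [ha₁]; exact Nat.mod_lt _ hB0
    have l2 : a₂ < B := by rw [ha₂]; exact Nat.mod_lt _ hB0
    have m1 : q₁ < B ^ D := by
      rw [hq₁]
      exact Nat.div_lt_of_lt_mul (by rwa [pow_succ, mul_comm] at h1)
    have m2 : q₂ < B ^ D := by
      rw [hq₂]
      exact Nat.div_lt_of_lt_mul (by rwa [pow_succ, mul_comm] at h2)
    simp only [par, nrm, ← ha₁, ← ha₂, ← hq₁, ← hq₂] at hp ⊢
    have p1 : a₁ % 2 = a₂ % 2 := by omega
    have p2 : par B D q₁ = par B D q₂ := by omega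
    -- the average of the last digits
    obtain ⟨a', ha'⟩ : ∃ a', a₁ + a₂ = 2 * a' := ⟨(a₁ + a₂) / 2, by omega⟩
    have hq : 2 ∣ q₁ + q₂ := by
      have h3 : 2 ∣ B * (q₁ + q₂) := by
        refine ⟨v' - a', ?_⟩
        have : B * (q₁ + q₂) + 2 * a' = 2 * v' := by
          rw [← ha', ← h12, ← e1, ← e2]
          ring
        omega
      have hc : Nat.Coprime 2 B := by
        exact Nat.coprime_two_left.2 (Nat.odd_iff.2 hB)
      exact hc.dvd_of_dvd_mul_left h3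
    obtain ⟨q', hq'⟩ := hq
    have l' : a' < B := by omega
    have e' : v' = a' + B * q' := by
      have : 2 * v' = 2 * (a' + B * q') := by
        rw [← h12, ← e1, ← e2]
        calc B * q₁ + a₁ + (B * q₂ + a₂) = (a₁ + a₂) + B * (q₁ + q₂) := by ring
          _ = 2 * a' + B * (2 * q') := by rw [ha', hq']
          _ = 2 * (a' + B * q') := by ring
      omega
    have r1 : v' % B = a' := by
      rw [e', Nat.add_mul_mod_self_left, Nat.mod_eq_of_lt l']
    have r2 : v' / B = q' := by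
      rw [e', Nat.add_mul_div_left _ _ hB0, Nat.div_eq_of_lt l', zero_add]
    rw [r1, r2]
    obtain ⟨i1, i2⟩ := nrm_mid hB D q₁ q₂ q' m1 m2 hq' p2
    have s1 : 2 * a' ^ 2 ≤ a₁ ^ 2 + a₂ ^ 2 ∧ (a₁ ≠ a₂ → 2 * a' ^ 2 < a₁ ^ 2 + a₂ ^ 2) := by
      zify at ha' ⊢
      have h4 : 2 * (2 * (a' : ℤ) ^ 2) = 2 * (a₁ ^ 2 + a₂ ^ 2) - (a₁ - a₂) ^ 2 := by
        have h5 : (a' : ℤ) * 2 = a₁ + a₂ := by rw [ha']; ring
        linear_combination ((a' : ℤ) * 2 + a₁ + a₂) * h5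
      constructor
      · have h6 := sq_nonneg ((a₁ : ℤ) - a₂)
        clear * - h4 h6
        linarith
      · intro hne
        have h6 : 0 < ((a₁ : ℤ) - a₂) ^ 2 := by
          have : (a₁ : ℤ) - a₂ ≠ 0 := sub_ne_zero.2 hne
          positivity
        clear * - h4 h6
        linarith
    refine ⟨by omega, fun hne => ?_⟩
    by_cases ha : a₁ = a₂
    · have hqne : q₁ ≠ q₂ := by
        rintro rfl
        exact hne (by rw [← e1, ← e2, ha])
      have := i2 hqne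
      omega
    · have := s1.2 ha
      omega

/-- The class number of `v`. -/
def cl (B D v : ℕ) : ℕ := nrm B D v * 2 ^ D + par B D v

theorem cl_lt {B : ℕ} (hB : 0 < B) (D v : ℕ) : cl B D v < (D * B ^ 2 + 1) * 2 ^ D := by
  have h1 := nrm_le hB D v
  have h2 := par_lt B D v
  unfold cl
  nlinarith [Nat.mul_le_mul_right (2 ^ D) h1]

theorem cl_mid {B : ℕ} (hB : B % 2 = 1) {D v₁ v₂ v' : ℕ} (h1 : v₁ < B ^ D) (h2 : v₂ < B ^ D)
    (h : v₁ + v₂ = 2 * v') (hc : cl B D v₁ = cl B D v₂) (hne : v₁ ≠ v₂) :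
    cl B D v' < cl B D v₁ := by
  have p1 := par_lt B D v₁
  have p2 := par_lt B D v₂
  have p3 := par_lt B D v'
  have hpos : 0 < 2 ^ D := by positivity
  have hpar : par B D v₁ = par B D v₂ := by
    have := congrArg (· % 2 ^ D) hc
    simp only [cl, Nat.mul_add_mod_self_right, Nat.mod_eq_of_lt p1, Nat.mod_eq_of_lt p2] at this
    exact this
  have hn : nrm B D v₁ = nrm B D v₂ := by
    unfold cl at hc
    rw [hpar] at hc
    exact Nat.eq_of_mul_eq_mul_right hpos (Nat.add_right_cancel hc)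
  have key := (nrm_mid hB D v₁ v₂ v' h1 h2 h hpar).2 hne
  have hlt : nrm B D v' < nrm B D v₁ := by omega
  unfold cl
  calc nrm B D v' * 2 ^ D + par B D v' < nrm B D v' * 2 ^ D + 2 ^ D := by omega
    _ = (nrm B D v' + 1) * 2 ^ D := by ring
    _ ≤ nrm B D v₁ * 2 ^ D := Nat.mul_le_mul_right _ hlt
    _ ≤ _ := Nat.le_add_right _ _

end Pool.Agent.Moser
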