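import Pool.Agent.Moser.Build

set_option autoImplicit false

/-!
# From `Fin 3` to real points
-/

namespace Pool.Agent.Moser

open Finset

theorem sg_inj : Function.Injective sg := by
  intro a b h
  have : ∀ a b : Fin 3, sg a = sg b → a = b := by decide
  exact this a b h

/-- the real point of `x` -/
noncomputable def phi {d : ℕ} (x : Fin d → Fin 3) : Fin d → ℝ := fun i => ((sg (x i) : ℤ) : ℝ) + 2

theorem phi_inj {d : ℕ} : Function.Injective (phi (d := d)) := by
  intro x y h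
  funext i
  have := congrFun h i
  simp only [phi, add_left_inj, Int.cast_inj] at this
  exact sg_inj this

theorem phi_vals {d : ℕ} (x : Fin d → Fin 3) (i : Fin d) :
    phi x i = 1 ∨ phi x i = 2 ∨ phi x i = 3 := by
  unfold phi
  rcases sg_cases (x i) with h | h | h <;> rw [h] <;> norm_num

theorem triple_cases : ∀ x y z : Fin 3, x ≠ y → z ≠ x → z ≠ y →
    (sg z - sg x = 2 * (sg y - sg x)) ∨ (sg z - sg x = -(sg y - sg x)) ∨
      (2 * (sg z - sg x) = sg y - sg x) := by
  decide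

theorem line_of_collinear {d : ℕ} {a b c : Fin d → Fin 3} (hab : a ≠ b) (hac : a ≠ c)
    (hbc : b ≠ c) (h : Collinear ℝ ({phi a, phi b, phi c} : Set (Fin d → ℝ))) :
    IsLine a c b ∨ IsLine b c a ∨ IsLine a b c := by
  rw [collinear_iff_of_mem (p₀ := phi a) (by simp)] at h
  obtain ⟨v, hv⟩ := h
  obtain ⟨r₁, h1⟩ := hv (phi b) (by simp)
  obtain ⟨r₂, h2⟩ := hv (phi c) (by simp)
  have hr1 : r₁ ≠ 0 := by
    rintro rfl
    apply hab
    apply phi_inj
    rw [h1]
    simp
  have hdiff : ∀ x : Fin d → Fin 3, ∀ i, phi x i - phi a i = ((sg (x i) - sg (a i) : ℤ) : ℝ) := by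
    intro x i
    unfold phi
    push_cast
    ring
  obtain ⟨t, ht⟩ : ∃ t : ℝ, ∀ i, ((sg (c i) - sg (a i) : ℤ) : ℝ) =
      t * ((sg (b i) - sg (a i) : ℤ) : ℝ) := by
    refine ⟨r₂ / r₁, fun i => ?_⟩
    rw [← hdiff, ← hdiff, h1, h2]
    simp only [vadd_eq_add, Pi.add_apply, Pi.smul_apply, smul_eq_mul, add_sub_cancel_right]
    field_simp
  have ht0 : t ≠ 0 := by
    rintro rfl
    apply hac
    funext i
    have := ht i
    rw [zero_mul, Int.cast_eq_zero, sub_eq_zero] at this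
    exact (sg_inj this).symm
  have ht1 : t ≠ 1 := by
    rintro rfl
    apply hbc
    funext i
    have := ht i
    rw [one_mul, Int.cast_inj, sub_left_inj] at this
    exact (sg_inj this).symm
  obtain ⟨i, hi⟩ : ∃ i, a i ≠ b i := by
    by_contra hcon
    push Not at hcon
    exact hab (funext hcon)
  have hbi : ((sg (b i) - sg (a i) : ℤ) : ℝ) ≠ 0 := by
    rw [Int.cast_ne_zero, sub_ne_zero]
    exact fun h => hi (sg_inj h).symm
  have hca : c i ≠ a i := by
    intro h
    have := ht i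
    rw [h, sub_self, Int.cast_zero] at this
    rcases mul_eq_zero.1 this.symm with h3 | h3
    · exact ht0 h3
    · exact hbi h3
  have hcb : c i ≠ b i := by
    intro h
    have := ht i
    rw [h] at this
    apply ht1
    have h3 : (t - 1) * ((sg (b i) - sg (a i) : ℤ) : ℝ) = 0 := by linear_combination -this
    rcases mul_eq_zero.1 h3 with h4 | h4
    · linarith
    · exact absurd h4 hbi
  rcases triple_cases _ _ _ hi hca hcb with h3 | h3 | h3
  · left
    have htv : t = 2 := by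
      have h4 := ht i
      rw [h3] at h4
      push_cast at h4 hbi
      have h5 : (t - 2) * ((sg (b i) : ℝ) - sg (a i)) = 0 := by linear_combination -h4
      rcases mul_eq_zero.1 h5 with h6 | h6
      · linarith
      · exact absurd h6 hbi
    intro k
    have h4 := ht k
    rw [htv] at h4
    have h5 : sg (c k) - sg (a k) = 2 * (sg (b k) - sg (a k)) := by exact_mod_cast h4
    linarith
  · right
    left
    have htv : t = -1 := by
      have h4 := ht i
      rw [h3] at h4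
      push_cast at h4 hbi
      have h5 : (t + 1) * ((sg (b i) : ℝ) - sg (a i)) = 0 := by linear_combination -h4
      rcases mul_eq_zero.1 h5 with h6 | h6
      · linarith
      · exact absurd h6 hbi
    intro k
    have h4 := ht k
    rw [htv] at h4
    have h5 : sg (c k) - sg (a k) = -1 * (sg (b k) - sg (a k)) := by exact_mod_cast h4
    linarith
  · right
    right
    have htv : 2 * t = 1 := by
      have h4 := ht i
      have h7 : (2 : ℝ) * ((sg (c i) - sg (a i) : ℤ) : ℝ) = ((sg (b i) - sg (a i) : ℤ) : ℝ) := by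
        exact_mod_cast h3
      rw [h4] at h7
      have h5 : (2 * t - 1) * ((sg (b i) - sg (a i) : ℤ) : ℝ) = 0 := by linear_combination h7
      rcases mul_eq_zero.1 h5 with h6 | h6
      · linarith
      · exact absurd h6 hbi
    intro k
    have h4 := ht k
    have h8 : (2 : ℝ) * ((sg (c k) - sg (a k) : ℤ) : ℝ) = ((sg (b k) - sg (a k) : ℤ) : ℝ) := by
      rw [h4]
      linear_combination ((sg (b k) - sg (a k) : ℤ) : ℝ) * htv
    have h5 : 2 * (sg (c k) - sg (a k)) = sg (b k) - sg (a k) := by exact_mod_cast h8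
    linarith

/-- Large subsets of `{1,2,3}^d` without three collinear points: for every `K` there is `d = n²` with
a set of at least `(K / 16) * 3^d / √d` points. -/
theorem exists_real (K : ℕ) (hK : 0 < K) :
    ∃ n : ℕ, 0 < n ∧ ∃ S : Finset (Fin (n ^ 2) → ℝ),
      (∀ x ∈ S, ∀ i, x i = 1 ∨ x i = 2 ∨ x i = 3) ∧
      (∀ p ∈ S, ∀ q ∈ S, ∀ r ∈ S, p ≠ q → p ≠ r → q ≠ r →
        ¬ Collinear ℝ ({p, q, r} : Set (Fin (n ^ 2) → ℝ))) ∧
      K * 3 ^ (n ^ 2) ≤ 16 * n * S.card := by
  classical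
  obtain ⟨n, hn, S, hS, hcard⟩ := exists_params K hK
  refine ⟨n, hn, S.image phi, ?_, ?_, ?_⟩
  · intro x hx i
    obtain ⟨y, -, rfl⟩ := mem_image.1 hx
    exact phi_vals y i
  · intro p hp q hq r hr hpq hpr hqr hcol
    obtain ⟨a, ha, rfl⟩ := mem_image.1 hp
    obtain ⟨b, hb, rfl⟩ := mem_image.1 hq
    obtain ⟨c, hc, rfl⟩ := mem_image.1 hr
    have hab : a ≠ b := fun h => hpq (h ▸ rfl)
    have hac : a ≠ c := fun h => hpr (h ▸ rfl)
    have hbc : b ≠ c := fun h => hqr (h ▸ rfl)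
    rcases line_of_collinear hab hac hbc hcol with h | h | h
    · exact hac (hS a ha c hc b hb h)
    · exact hbc (hS b hb c hc a ha h)
    · exact hab (hS a ha b hb c hc h)
  · rwa [card_image_of_injective _ phi_inj]

theorem main : ¬ (∃ C : ℝ, ∀ d : ℕ, 1 ≤ d → ∀ S : Finset (Fin d → ℝ),
      (∀ x ∈ S, ∀ i, x i = 1 ∨ x i = 2 ∨ x i = 3) →
      (∀ p ∈ S, ∀ q ∈ S, ∀ r ∈ S, p ≠ q → p ≠ r → q ≠ r →
        ¬ Collinear ℝ ({p, q, r} : Set (Fin d → ℝ))) →
      (S.card : ℝ) ≤ C * (3 : ℝ) ^ d / Real.sqrt (d : ℝ)) := by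
  rintro ⟨C, hC⟩
  obtain ⟨K, hK⟩ := exists_nat_gt (16 * C)
  obtain ⟨n, hn, S, h1, h2, h3⟩ := exists_real (K + 1) (Nat.succ_pos K)
  have h4 := hC (n ^ 2) (Nat.one_le_pow _ _ hn) S h1 h2
  have hsq : Real.sqrt ((n ^ 2 : ℕ) : ℝ) = n := by
    push_cast
    exact Real.sqrt_sq (Nat.cast_nonneg n)
  rw [hsq] at h4
  have hn' : (0 : ℝ) < n := by exact_mod_cast hn
  rw [le_div_iff₀ hn'] at h4
  have h5 : ((K : ℝ) + 1) * 3 ^ (n ^ 2) ≤ 16 * n * S.card := by exact_mod_cast h3
  have h6 : (0 : ℝ) < 3 ^ (n ^ 2) := by positivity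
  have h7 : ((K : ℝ) + 1) * 3 ^ (n ^ 2) ≤ (16 * C) * 3 ^ (n ^ 2) := by
    calc ((K : ℝ) + 1) * 3 ^ (n ^ 2) ≤ 16 * (S.card * n) := by linarith
      _ ≤ 16 * (C * 3 ^ (n ^ 2)) := by linarith
      _ = _ := by ring
  have h8 := le_of_mul_le_mul_right h7 h6
  linarith

end Pool.Agent.Moser
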